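import Pool.Agent.HGR.Main

/-!
Groups of homological dimension at most one with a locally graded subgroup of finite index
-/

set_option autoImplicit false

open Pool.Agent

namespace Pool.Agent.HGW

/-- a finitely generated group of homological dimension at most one is free if it has a locally
graded subgroup of finite index -/
theorem free_of_index {M : Type} [Group M]
    (hd : ∀ A : Rep.{0} ℤ M, Subsingleton (groupHomology A 2)) (hfg : Group.FG M)
    (C : Subgroup M) (hC : C.index ≠ 0)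
    (hloc : ∀ L : Subgroup M, L ≤ C → L.FG → L ≠ ⊥ → ∃ K : Subgroup L, K.FiniteIndex ∧ K ≠ ⊤) :
    IsFreeGroup M := by
  have h1 : ∀ L : Subgroup M, L.FG → L ≠ ⊥ → ∃ K : Subgroup L, K.FiniteIndex ∧ K ≠ ⊤ := by
    intro L hL hL1
    by_cases hLC : L ≤ C
    · exact hloc L hLC hL hL1
    · refine ⟨C.subgroupOf L, ⟨?_⟩, fun h => hLC (Subgroup.subgroupOf_eq_top.1 h)⟩
      have : C.FiniteIndex := ⟨hC⟩
      exact Subgroup.FiniteIndex.index_ne_zero
  have h2 : ∀ L : Subgroup M, L.FG → L ≠ ⊥ →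
      ∃ (Q : Type) (_ : Group Q) (P : Q → Prop) (f : L →* Q), HGR.IsCone P ∧ f ≠ 1 := by
    intro L hL hL1
    obtain ⟨f, hf⟩ := HGR.z_of_index (fun A => H5.homology_subgroup hd L A)
      ((Group.fg_iff_subgroup_fg L).2 hL) (h1 L hL hL1)
    exact ⟨_, _, _, f, HGR.cone_int, hf⟩
  obtain ⟨P, hP⟩ := HGR.burns_hale h2
  exact H5L.free_of_cone (P := P) ⟨hP.1, hP.2.1, hP.2.2⟩ hd hfg

/-- the same for a subgroup `B` of finite index in a subgroup `M` of `G` -/
theorem free_of_relIndex {G : Type} [Group G]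
    (hd : ∀ A : Rep.{0} ℤ G, Subsingleton (groupHomology A 2)) (B M : Subgroup G) (hM : M.FG)
    (hi : B.relIndex M ≠ 0)
    (hloc : ∀ L : Subgroup G, L ≤ B → L.FG → L ≠ ⊥ → ∃ K : Subgroup L, K.FiniteIndex ∧ K ≠ ⊤) :
    IsFreeGroup M := by
  refine free_of_index (fun A => H5.homology_subgroup hd M A) ((Group.fg_iff_subgroup_fg M).2 hM)
    (B.subgroupOf M) hi fun L hLB hL hL1 => ?_
  have hle : L.map M.subtype ≤ B := by
    rintro _ ⟨x, hx, rfl⟩
    exact hLB hx
  have hne : L.map M.subtype ≠ ⊥ := fun h =>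
    hL1 ((Subgroup.map_eq_bot_iff_of_injective L M.subtype_injective).1 h)
  set e := L.equivMapOfInjective M.subtype M.subtype_injective with he
  have hLfg : Group.FG L := (Group.fg_iff_subgroup_fg L).2 hL
  have hfg : (L.map M.subtype).FG := (Group.fg_iff_subgroup_fg _).1
    (Group.fg_of_surjective (f := e.toMonoidHom) e.surjective)
  obtain ⟨K, hK, hK1⟩ := hloc _ hle hfg hne
  refine ⟨K.comap e.toMonoidHom, ⟨?_⟩, fun h => hK1 ?_⟩
  · rw [Subgroup.index_comap_of_surjective K e.surjective]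
    exact hK.index_ne_zero
  · rw [Subgroup.eq_top_iff']
    intro q
    obtain ⟨g, rfl⟩ := e.surjective q
    have : g ∈ K.comap e.toMonoidHom := h ▸ Subgroup.mem_top g
    exact this

end Pool.Agent.HGW
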